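import Pool.Agent.W120.WM.Defs

/-! WM-LEFT: the line `Re s = -1/2`. -/

set_option autoImplicit false

open MeasureTheory Filter Topology Set

namespace Pool.Agent.W632.WM

open Pool.Agent.W120.WM

/-- `1/ζ` is bounded for `re s ≥ 3/2` -/
theorem zeta_inv_right : ∃ B : ℝ, 1 ≤ B ∧ ∀ s : ℂ, 3 / 2 ≤ s.re →
    riemannZeta s ≠ 0 ∧ ‖(riemannZeta s)⁻¹‖ ≤ B := by
  have hsum : Summable (fun n : ℕ => 1 / (n : ℝ) ^ (3 / 2 : ℝ)) :=
    Real.summable_one_div_nat_rpow.2 (by norm_num)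
  refine ⟨max 1 (∑' n : ℕ, 1 / (n : ℝ) ^ (3 / 2 : ℝ)), le_max_left _ _, fun s hs => ?_⟩
  have hs1 : 1 < s.re := by linarith
  have h0 : riemannZeta s ≠ 0 := riemannZeta_ne_zero_of_one_lt_re hs1
  refine ⟨h0, ?_⟩
  have h1 := ArithmeticFunction.LSeries_zeta_mul_Lseries_moebius hs1
  rw [ArithmeticFunction.LSeries_zeta_eq_riemannZeta hs1] at h1
  have h2 := inv_eq_of_mul_eq_one_right h1
  rw [h2]
  have hterm : ∀ n : ℕ, ‖LSeries.term (fun n => ((ArithmeticFunction.moebius n : ℤ) : ℂ)) s n‖ ≤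
      1 / (n : ℝ) ^ (3 / 2 : ℝ) := by
    intro n
    rw [LSeries.norm_term_eq]
    split_ifs with hn
    · positivity
    · have hn1 : (1 : ℝ) ≤ n := by exact_mod_cast Nat.one_le_iff_ne_zero.2 hn
      have hmu : ‖((ArithmeticFunction.moebius n : ℤ) : ℂ)‖ ≤ 1 := by
        rw [Complex.norm_intCast]
        exact_mod_cast ArithmeticFunction.abs_moebius_le_one
      have hpow : (n : ℝ) ^ (3 / 2 : ℝ) ≤ (n : ℝ) ^ s.re :=
        Real.rpow_le_rpow_of_exponent_le hn1 hs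
      have hpos : 0 < (n : ℝ) ^ (3 / 2 : ℝ) := by positivity
      gcongr
  unfold LSeries
  have hs2 : Summable (fun n : ℕ =>
      ‖LSeries.term (fun n => ((ArithmeticFunction.moebius n : ℤ) : ℂ)) s n‖) :=
    Summable.of_nonneg_of_le (fun _ => norm_nonneg _) hterm hsum
  exact ((norm_tsum_le_tsum_norm hs2).trans (hs2.tsum_le_tsum hterm hsum)).trans (le_max_right _ _)

theorem Gammaℝ_conj (s : ℂ) :
    Complex.Gammaℝ ((starRingEnd ℂ) s) = (starRingEnd ℂ) (Complex.Gammaℝ s) := by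
  rw [Complex.Gammaℝ_def, Complex.Gammaℝ_def, map_mul, ← Complex.Gamma_conj]
  congr 1
  · have hpi : (Real.pi : ℂ).arg ≠ Real.pi := by
      rw [Complex.arg_ofReal_of_nonneg Real.pi_pos.le]
      exact Real.pi_ne_zero.symm
    have h1 := Complex.cpow_conj (Real.pi : ℂ) (-s / 2) hpi
    rw [Complex.conj_ofReal] at h1
    rw [← h1]
    congr 1
    rw [map_div₀, map_neg, Complex.conj_ofNat]
  · congr 1
    rw [map_div₀, Complex.conj_ofNat]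

/-- the size of `ζ` on `Re s = -1/2` -/
theorem norm_zeta_left (t : ℝ) :
    ‖riemannZeta (⟨-1 / 2, t⟩ : ℂ)‖ =
      ‖riemannZeta (⟨3 / 2, -t⟩ : ℂ)‖ * (‖(⟨-1 / 2, t⟩ : ℂ)‖ / (2 * Real.pi)) := by
  set s : ℂ := ⟨-1 / 2, t⟩ with hs
  have hs0 : s ≠ 0 := by
    intro h
    have := congrArg Complex.re h
    norm_num [hs] at this
  have h1s : (1 : ℂ) - s = ⟨3 / 2, -t⟩ := by
    apply Complex.ext
    · norm_num [hs]
    · norm_num [hs]
  have h1s0 : (⟨3 / 2, -t⟩ : ℂ) ≠ 0 := by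
    intro h
    have := congrArg Complex.re h
    norm_num at this
  have hconj : s + 2 = (starRingEnd ℂ) (⟨3 / 2, -t⟩ : ℂ) := by
    apply Complex.ext
    · norm_num [hs]
    · norm_num [hs]
  have hG : ‖Complex.Gammaℝ (⟨3 / 2, -t⟩ : ℂ)‖ = ‖Complex.Gammaℝ s‖ * (‖s‖ / (2 * Real.pi)) := by
    have h1 := Complex.Gammaℝ_add_two hs0
    rw [hconj, Gammaℝ_conj] at h1
    have h2 := congrArg norm h1
    rw [Complex.norm_conj] at h2
    rw [h2]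
    simp only [norm_mul, norm_div, Complex.norm_real, Complex.norm_ofNat, Real.norm_eq_abs,
      abs_of_pos Real.pi_pos]
    ring
  have hGs : Complex.Gammaℝ s ≠ 0 := by
    intro h
    rw [Complex.Gammaℝ_eq_zero_iff] at h
    obtain ⟨n, hn⟩ := h
    have h3 := congrArg Complex.re hn
    simp [hs] at h3
    have h4 : (1 : ℝ) = 4 * n := by linarith
    have h5 : (1 : ℕ) = 4 * n := by exact_mod_cast h4
    omega
  have hG1 : Complex.Gammaℝ (⟨3 / 2, -t⟩ : ℂ) ≠ 0 := by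
    apply Complex.Gammaℝ_ne_zero_of_re_pos
    norm_num
  rw [riemannZeta_def_of_ne_zero hs0, riemannZeta_def_of_ne_zero h1s0, ← h1s,
    completedRiemannZeta_one_sub, h1s, norm_div, norm_div, hG]
  have h6 : ‖Complex.Gammaℝ s‖ ≠ 0 := norm_ne_zero_iff.2 hGs
  have h7 : ‖s‖ ≠ 0 := norm_ne_zero_iff.2 hs0
  have h8 := Real.pi_ne_zero
  field_simp

theorem norm_sq_left (t : ℝ) : ‖(⟨-1 / 2, t⟩ : ℂ)‖ ^ 2 = 1 / 4 + t ^ 2 := by
  rw [← Complex.normSq_eq_norm_sq, Complex.normSq_apply]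
  norm_num
  ring

theorem t_left : T_LEFT := by
  obtain ⟨B0, hB0, hB⟩ := zeta_inv_right
  refine ⟨2 * Real.pi * B0, by positivity, fun t => ?_⟩
  obtain ⟨h1, h2⟩ := hB (⟨3 / 2, -t⟩ : ℂ) (by norm_num)
  have hz := norm_zeta_left t
  have hsq := norm_sq_left t
  have hs0 : (⟨-1 / 2, t⟩ : ℂ) ≠ 0 := by
    intro h
    have := congrArg Complex.re h
    norm_num at this
  have hn : 0 < ‖(⟨-1 / 2, t⟩ : ℂ)‖ := norm_pos_iff.2 hs0
  have hz1 : 0 < ‖riemannZeta (⟨3 / 2, -t⟩ : ℂ)‖ := norm_pos_iff.2 h1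
  have hpi := Real.pi_pos
  have hz2 : 0 < ‖riemannZeta (⟨-1 / 2, t⟩ : ℂ)‖ := by
    rw [hz]
    positivity
  refine ⟨norm_pos_iff.1 hz2, ?_⟩
  rw [norm_inv, norm_mul, hz, ← hsq]
  rw [norm_inv] at h2
  have e : (‖(⟨-1 / 2, t⟩ : ℂ)‖ * (‖riemannZeta (⟨3 / 2, -t⟩ : ℂ)‖ *
      (‖(⟨-1 / 2, t⟩ : ℂ)‖ / (2 * Real.pi))))⁻¹ =
      2 * Real.pi * (‖riemannZeta (⟨3 / 2, -t⟩ : ℂ)‖)⁻¹ / ‖(⟨-1 / 2, t⟩ : ℂ)‖ ^ 2 := by
    field_simp
  rw [e]
  gcongr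

theorem cont_line : Continuous (fun t : ℝ => (⟨-1 / 2, t⟩ : ℂ)) := by
  have : (fun t : ℝ => (⟨-1 / 2, t⟩ : ℂ)) = fun t : ℝ => ((-1 / 2 : ℝ) : ℂ) + t * Complex.I := by
    funext t
    apply Complex.ext <;> simp
  rw [this]
  fun_prop

theorem cont_GG (h v : ℝ) : Continuous (fun t : ℝ => GG h v (⟨-1 / 2, t⟩ : ℂ)) := by
  obtain ⟨B, hB, hT⟩ := t_left
  unfold GG EE
  refine Continuous.div ?_ ?_ ?_
  · have := cont_line
    fun_prop
  · refine cont_line.mul ?_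
    rw [continuous_iff_continuousAt]
    intro t
    have hne : (⟨-1 / 2, t⟩ : ℂ) ≠ 1 := by
      intro h
      have := congrArg Complex.re h
      norm_num at this
    exact ContinuousAt.comp (f := fun t : ℝ => (⟨-1 / 2, t⟩ : ℂ)) (g := riemannZeta)
      (differentiableAt_riemannZeta hne).continuousAt cont_line.continuousAt
  · intro t
    refine mul_ne_zero ?_ (hT t).1
    intro h
    have := congrArg Complex.re h
    norm_num at this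

theorem norm_EE_left (h v t : ℝ) (h0 : 0 < h) (h1 : h ≤ 1) :
    ‖EE h v (⟨-1 / 2, t⟩ : ℂ)‖ ≤ Real.exp 1 * Real.exp (-v / 2) := by
  unfold EE
  rw [Complex.norm_exp, ← Real.exp_add]
  apply Real.exp_le_exp.2
  have e : ((h : ℂ) ^ 2 / 2 * (⟨-1 / 2, t⟩ : ℂ) ^ 2 + v * (⟨-1 / 2, t⟩ : ℂ)).re =
      h ^ 2 / 2 * (1 / 4 - t ^ 2) - v / 2 := by
    have e1 : (h : ℂ) ^ 2 / 2 = ((h ^ 2 / 2 : ℝ) : ℂ) := by push_cast; ring
    rw [e1, Complex.add_re, Complex.re_ofReal_mul, Complex.re_ofReal_mul, sq (⟨-1 / 2, t⟩ : ℂ),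
      Complex.mul_re]
    ring
  rw [e]
  have h2 : h ^ 2 ≤ 1 := by nlinarith
  nlinarith [sq_nonneg (h * t), sq_nonneg h]

theorem norm_GG_left : ∃ B : ℝ, 0 < B ∧ ∀ h v t : ℝ, 0 < h → h ≤ 1 →
    ‖GG h v (⟨-1 / 2, t⟩ : ℂ)‖ ≤ B * Real.exp (-v / 2) * (1 + t ^ 2)⁻¹ := by
  obtain ⟨B, hB, hT⟩ := t_left
  refine ⟨4 * Real.exp 1 * B, by positivity, fun h v t h0 h1 => ?_⟩
  unfold GG
  rw [div_eq_mul_inv, norm_mul]
  have h2 := norm_EE_left h v t h0 h1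
  have h3 := (hT t).2
  have h4 : B / (1 / 4 + t ^ 2) ≤ 4 * B * (1 + t ^ 2)⁻¹ := by
    rw [← div_eq_mul_inv, div_le_div_iff₀ (by positivity) (by positivity)]
    nlinarith [sq_nonneg t]
  calc ‖EE h v (⟨-1 / 2, t⟩ : ℂ)‖ * ‖((⟨-1 / 2, t⟩ : ℂ) * riemannZeta (⟨-1 / 2, t⟩ : ℂ))⁻¹‖
      ≤ (Real.exp 1 * Real.exp (-v / 2)) * (4 * B * (1 + t ^ 2)⁻¹) := by
        gcongr
        exact h3.trans h4
    _ = 4 * Real.exp 1 * B * Real.exp (-v / 2) * (1 + t ^ 2)⁻¹ := by ring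

theorem t_lb : T_LB := by
  obtain ⟨B, hB, hT⟩ := norm_GG_left
  refine ⟨B * Real.pi, by positivity, fun h v h0 h1 => ?_⟩
  have hi : Integrable (fun t : ℝ => B * Real.exp (-v / 2) * (1 + t ^ 2)⁻¹) :=
    integrable_inv_one_add_sq.const_mul _
  refine ⟨hi.mono' (cont_GG h v).aestronglyMeasurable
    (Eventually.of_forall fun t => hT h v t h0 h1), ?_⟩
  calc ‖∫ t : ℝ, GG h v (⟨-1 / 2, t⟩ : ℂ)‖
      ≤ ∫ t : ℝ, B * Real.exp (-v / 2) * (1 + t ^ 2)⁻¹ :=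
        norm_integral_le_of_norm_le hi (Eventually.of_forall fun t => hT h v t h0 h1)
    _ = B * Real.pi * Real.exp (-v / 2) := by
        rw [integral_const_mul, integral_univ_inv_one_add_sq]
        ring

end Pool.Agent.W632.WM
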